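import Pool.Agent.helper12.GS.Pm

/-!
Generated: constants of the corner programs of the table Q20a.
-/

namespace Pool.Agent.helper12.K20

open Pool.Agent.helper31.IA (Z)
open Pool.Agent.helper12.GS

def p0 : Pm where
  ec := ⟨45902462976, 0, 0, 0⟩
  bc := ⟨0, 0, 0, 0⟩
  nn := ⟨1099511627776, 0, 0, 0⟩
  tj := ⟨4398046511104, 0, 0, 0⟩
  ca := ⟨1099511627776, 0, 0, 0⟩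
  cb := ⟨879662989312, 0, 0, 0⟩
  cc := ⟨0, 0, 0, 0⟩
  ax := ⟨0, 0, 0, 0⟩
  ay := ⟨0, 0, 0, 0⟩
  xa := ⟨0, 0, 0, 0⟩
  C2 := ⟨0, 0, 0, 0⟩
  wr := ⟨0, 998043025408, 0, 0⟩
  wi := ⟨5872294035456, 0, 0, 0⟩
  w1 := ⟨0, 11957188952064, 0, 0⟩
  h000 := ⟨0, 59816255360, 0, 0⟩
  h001 := ⟨2081394880, 0, 0, 0⟩
  h002 := ⟨0, 4130264000, 0, 0⟩
  h003 := ⟨7518620864, 0, 0, 0⟩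
  h010 := ⟨0, 1996570196992, 0, 0⟩
  h011 := ⟨510933846080, 0, 0, 0⟩
  h012 := ⟨0, 0, 0, 0⟩
  h020 := ⟨1542885910656, 0, 0, 0⟩
  h021 := ⟨0, 0, 0, 0⟩
  h030 := ⟨0, 0, 0, 0⟩
  h100 := ⟨2625549888, 0, 0, 0⟩
  h101 := ⟨1422037824, 0, 0, 0⟩
  h102 := ⟨0, 152240768, 0, 0⟩
  h110 := ⟨49251444032, 0, 0, 0⟩
  h111 := ⟨0, 228020891136, 0, 0⟩
  h120 := ⟨0, 0, 0, 0⟩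
  h200 := ⟨1008852608, 0, 0, 0⟩
  h201 := ⟨0, 133931008, 0, 0⟩
  h202 := ⟨745861632, 0, 0, 0⟩
  h210 := ⟨39522469312, 0, 0, 0⟩
  h211 := ⟨0, 0, 0, 0⟩
  h300 := ⟨0, 184519424, 0, 0⟩
  h301 := ⟨0, 51158080, 0, 0⟩
  h310 := ⟨0, 6657367872, 0, 0⟩
  h400 := ⟨0, 5444288, 0, 0⟩
  h401 := ⟨10833024, 0, 0, 0⟩
  h410 := ⟨0, 0, 0, 0⟩
  h500 := ⟨4637056, 0, 0, 0⟩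
  h501 := ⟨0, 0, 0, 0⟩
  h600 := ⟨0, 689408, 0, 0⟩
  h700 := ⟨0, 0, 0, 0⟩
  h800 := ⟨0, 0, 0, 0⟩
  m000 := ⟨1092187652096, 0, 0, 0⟩
  m001 := ⟨0, 669581312, 0, 0⟩
  m002 := ⟨8853913600, 0, 0, 0⟩
  m010 := ⟨175938732032, 0, 0, 0⟩
  m100 := ⟨28495183872, 0, 0, 0⟩
  m101 := ⟨1063583744, 0, 0, 0⟩
  m110 := ⟨585979985920, 0, 0, 0⟩
  m200 := ⟨0, 1729822720, 0, 0⟩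
  m300 := ⟨164495360, 0, 0, 0⟩
  a00 := ⟨76048236544, 0, 0, 0⟩
  a01 := ⟨112625647616, 0, 0, 0⟩
  a02 := ⟨252744368128, 0, 0, 0⟩
  a03 := ⟨0, 1068042289152, 0, 0⟩
  a10 := ⟨138764746752, 0, 0, 0⟩
  a11 := ⟨0, 563694927872, 0, 0⟩
  b00 := ⟨63711739904, 0, 0, 0⟩
  b01 := ⟨71615315968, 0, 0, 0⟩
  b02 := ⟨133046730752, 0, 0, 0⟩
  b03 := ⟨0, 676210737152, 0, 0⟩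
  b10 := ⟨92005400576, 0, 0, 0⟩
  b11 := ⟨0, 564737015808, 0, 0⟩
  t00 := ⟨906539237376, 0, 0, 0⟩
  t01 := ⟨1038876672, 0, 0, 0⟩
  t02 := ⟨1366813310976, 0, 0, 0⟩
  t03 := ⟨0, 4958628020224, 0, 0⟩
  t10 := ⟨2445418758144, 0, 0, 0⟩
  t11 := ⟨0, 1929877913600, 0, 0⟩
  s00 := ⟨1258382753792, 0, 0, 0⟩
  s01 := ⟨720951574528, 0, 0, 0⟩
  s02 := ⟨0, 327529529344, 0, 0⟩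
  s03 := ⟨4241980653568, 0, 0, 0⟩
  s10 := ⟨0, 3776625508352, 0, 0⟩
  s11 := ⟨6451272876032, 0, 0, 0⟩
  g00 := ⟨198513180672, 0, 0, 0⟩
  g01 := ⟨0, 173764430464, 0, 0⟩
  g10 := ⟨8000825637376, 0, 0, 0⟩
  g11 := ⟨0, 0, 0, 0⟩
  f00 := ⟨1575936818432, 0, 0, 0⟩
  f01 := ⟨762832117504, 0, 0, 0⟩
  f10 := ⟨50436827620992, 0, 0, 0⟩
  f11 := ⟨0, 0, 0, 0⟩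
  l000 := ⟨0, 0, 0, 0⟩
  l001 := ⟨0, 0, 0, 0⟩
  l002 := ⟨0, 0, 0, 0⟩
  l010 := ⟨0, 0, 0, 0⟩
  l011 := ⟨0, 0, 0, 0⟩
  l020 := ⟨0, 0, 0, 0⟩
  l100 := ⟨0, 0, 0, 0⟩
  l101 := ⟨0, 0, 0, 0⟩
  l102 := ⟨0, 0, 0, 0⟩
  l110 := ⟨0, 0, 0, 0⟩
  l111 := ⟨0, 0, 0, 0⟩
  l120 := ⟨0, 0, 0, 0⟩
  l200 := ⟨0, 0, 0, 0⟩
  l201 := ⟨0, 0, 0, 0⟩
  l210 := ⟨0, 0, 0, 0⟩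
  l300 := ⟨0, 0, 0, 0⟩
  l301 := ⟨0, 0, 0, 0⟩
  l310 := ⟨0, 0, 0, 0⟩
  l400 := ⟨0, 0, 0, 0⟩
  l401 := ⟨0, 0, 0, 0⟩
  l410 := ⟨0, 0, 0, 0⟩
  l500 := ⟨0, 0, 0, 0⟩
  l501 := ⟨0, 0, 0, 0⟩
  l510 := ⟨0, 0, 0, 0⟩
  l600 := ⟨0, 0, 0, 0⟩
  l700 := ⟨0, 0, 0, 0⟩
  l800 := ⟨0, 0, 0, 0⟩
  l900 := ⟨0, 0, 0, 0⟩
  l1000 := ⟨0, 0, 0, 0⟩
  l1100 := ⟨0, 0, 0, 0⟩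
  q00 := ⟨0, 0, 0, 0⟩
  q01 := ⟨0, 0, 0, 0⟩
  q02 := ⟨0, 0, 0, 0⟩
  q03 := ⟨0, 0, 0, 0⟩
  q10 := ⟨0, 0, 0, 0⟩
  q11 := ⟨0, 0, 0, 0⟩
  q12 := ⟨0, 0, 0, 0⟩
  q20 := ⟨0, 0, 0, 0⟩
  q21 := ⟨0, 0, 0, 0⟩
  q30 := ⟨0, 0, 0, 0⟩
  n000 := ⟨0, 0, 0, 0⟩
  n001 := ⟨0, 0, 0, 0⟩
  n002 := ⟨0, 0, 0, 0⟩
  n010 := ⟨0, 0, 0, 0⟩
  n011 := ⟨0, 0, 0, 0⟩
  n020 := ⟨0, 0, 0, 0⟩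
  n100 := ⟨0, 0, 0, 0⟩
  n101 := ⟨0, 0, 0, 0⟩
  n110 := ⟨0, 0, 0, 0⟩
  n200 := ⟨0, 0, 0, 0⟩
  n201 := ⟨0, 0, 0, 0⟩
  n210 := ⟨0, 0, 0, 0⟩
  n300 := ⟨0, 0, 0, 0⟩
  n400 := ⟨0, 0, 0, 0⟩
  n500 := ⟨0, 0, 0, 0⟩
  e00 := ⟨0, 0, 0, 0⟩
  e01 := ⟨0, 0, 0, 0⟩
  e02 := ⟨0, 0, 0, 0⟩
  e03 := ⟨0, 0, 0, 0⟩
  e10 := ⟨0, 0, 0, 0⟩
  e11 := ⟨0, 0, 0, 0⟩
  B1 := 0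

def p1 : Pm where
  ec := ⟨45902462976, 0, 0, 0⟩
  bc := ⟨0, 0, 0, 0⟩
  nn := ⟨2199023255552, 0, 0, 0⟩
  tj := ⟨6597069766656, 0, 0, 0⟩
  ca := ⟨879662989312, 0, 0, 0⟩
  cb := ⟨659814350848, 0, 0, 0⟩
  cc := ⟨0, 0, 0, 0⟩
  ax := ⟨0, 0, 0, 0⟩
  ay := ⟨0, 0, 0, 0⟩
  xa := ⟨0, 0, 0, 0⟩
  C2 := ⟨0, 0, 0, 0⟩
  wr := ⟨0, 998043025408, 0, 0⟩
  wi := ⟨5872294035456, 0, 0, 0⟩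
  w1 := ⟨0, 11957188952064, 0, 0⟩
  h000 := ⟨0, 59816255360, 0, 0⟩
  h001 := ⟨2081394880, 0, 0, 0⟩
  h002 := ⟨0, 4130264000, 0, 0⟩
  h003 := ⟨7518620864, 0, 0, 0⟩
  h010 := ⟨0, 1996570196992, 0, 0⟩
  h011 := ⟨510933846080, 0, 0, 0⟩
  h012 := ⟨0, 0, 0, 0⟩
  h020 := ⟨1542885910656, 0, 0, 0⟩
  h021 := ⟨0, 0, 0, 0⟩
  h030 := ⟨0, 0, 0, 0⟩
  h100 := ⟨2625549888, 0, 0, 0⟩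
  h101 := ⟨1422037824, 0, 0, 0⟩
  h102 := ⟨0, 152240768, 0, 0⟩
  h110 := ⟨49251444032, 0, 0, 0⟩
  h111 := ⟨0, 228020891136, 0, 0⟩
  h120 := ⟨0, 0, 0, 0⟩
  h200 := ⟨1008852608, 0, 0, 0⟩
  h201 := ⟨0, 133931008, 0, 0⟩
  h202 := ⟨745861632, 0, 0, 0⟩
  h210 := ⟨39522469312, 0, 0, 0⟩
  h211 := ⟨0, 0, 0, 0⟩
  h300 := ⟨0, 184519424, 0, 0⟩
  h301 := ⟨0, 51158080, 0, 0⟩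
  h310 := ⟨0, 6657367872, 0, 0⟩
  h400 := ⟨0, 5444288, 0, 0⟩
  h401 := ⟨10833024, 0, 0, 0⟩
  h410 := ⟨0, 0, 0, 0⟩
  h500 := ⟨4637056, 0, 0, 0⟩
  h501 := ⟨0, 0, 0, 0⟩
  h600 := ⟨0, 689408, 0, 0⟩
  h700 := ⟨0, 0, 0, 0⟩
  h800 := ⟨0, 0, 0, 0⟩
  m000 := ⟨1093886345216, 0, 0, 0⟩
  m001 := ⟨0, 270598144, 0, 0⟩
  m002 := ⟨7851081728, 0, 0, 0⟩
  m010 := ⟨141506838528, 0, 0, 0⟩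
  m100 := ⟨27518238720, 0, 0, 0⟩
  m101 := ⟨1173028864, 0, 0, 0⟩
  m110 := ⟨579130753024, 0, 0, 0⟩
  m200 := ⟨0, 1432223744, 0, 0⟩
  m300 := ⟨129040384, 0, 0, 0⟩
  a00 := ⟨63711739904, 0, 0, 0⟩
  a01 := ⟨71615315968, 0, 0, 0⟩
  a02 := ⟨133046730752, 0, 0, 0⟩
  a03 := ⟨0, 676210737152, 0, 0⟩
  a10 := ⟨92005400576, 0, 0, 0⟩
  a11 := ⟨0, 564737015808, 0, 0⟩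
  b00 := ⟨53936521216, 0, 0, 0⟩
  b01 := ⟨42876338176, 0, 0, 0⟩
  b02 := ⟨51245875200, 0, 0, 0⟩
  b03 := ⟨0, 365064028160, 0, 0⟩
  b10 := ⟨25714753536, 0, 0, 0⟩
  b11 := ⟨0, 497933615104, 0, 0⟩
  t00 := ⟨759402594304, 0, 0, 0⟩
  t01 := ⟨33281540096, 0, 0, 0⟩
  t02 := ⟨450079752192, 0, 0, 0⟩
  t03 := ⟨0, 2615186817024, 0, 0⟩
  t10 := ⟨1742666399744, 0, 0, 0⟩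
  t11 := ⟨0, 460818022400, 0, 0⟩
  s00 := ⟨2164921991168, 0, 0, 0⟩
  s01 := ⟨721990451200, 0, 0, 0⟩
  s02 := ⟨1039283781632, 0, 0, 0⟩
  s03 := ⟨0, 716647366656, 0, 0⟩
  s10 := ⟨0, 1331206750208, 0, 0⟩
  s11 := ⟨4521394962432, 0, 0, 0⟩
  g00 := ⟨198513180672, 0, 0, 0⟩
  g01 := ⟨0, 173764430464, 0, 0⟩
  g10 := ⟨8000825637376, 0, 0, 0⟩
  g11 := ⟨0, 0, 0, 0⟩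
  f00 := ⟨1575936818432, 0, 0, 0⟩
  f01 := ⟨762832117504, 0, 0, 0⟩
  f10 := ⟨50436827620992, 0, 0, 0⟩
  f11 := ⟨0, 0, 0, 0⟩
  l000 := ⟨0, 0, 0, 0⟩
  l001 := ⟨0, 0, 0, 0⟩
  l002 := ⟨0, 0, 0, 0⟩
  l010 := ⟨0, 0, 0, 0⟩
  l011 := ⟨0, 0, 0, 0⟩
  l020 := ⟨0, 0, 0, 0⟩
  l100 := ⟨0, 0, 0, 0⟩
  l101 := ⟨0, 0, 0, 0⟩
  l102 := ⟨0, 0, 0, 0⟩
  l110 := ⟨0, 0, 0, 0⟩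
  l111 := ⟨0, 0, 0, 0⟩
  l120 := ⟨0, 0, 0, 0⟩
  l200 := ⟨0, 0, 0, 0⟩
  l201 := ⟨0, 0, 0, 0⟩
  l210 := ⟨0, 0, 0, 0⟩
  l300 := ⟨0, 0, 0, 0⟩
  l301 := ⟨0, 0, 0, 0⟩
  l310 := ⟨0, 0, 0, 0⟩
  l400 := ⟨0, 0, 0, 0⟩
  l401 := ⟨0, 0, 0, 0⟩
  l410 := ⟨0, 0, 0, 0⟩
  l500 := ⟨0, 0, 0, 0⟩
  l501 := ⟨0, 0, 0, 0⟩
  l510 := ⟨0, 0, 0, 0⟩
  l600 := ⟨0, 0, 0, 0⟩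
  l700 := ⟨0, 0, 0, 0⟩
  l800 := ⟨0, 0, 0, 0⟩
  l900 := ⟨0, 0, 0, 0⟩
  l1000 := ⟨0, 0, 0, 0⟩
  l1100 := ⟨0, 0, 0, 0⟩
  q00 := ⟨0, 0, 0, 0⟩
  q01 := ⟨0, 0, 0, 0⟩
  q02 := ⟨0, 0, 0, 0⟩
  q03 := ⟨0, 0, 0, 0⟩
  q10 := ⟨0, 0, 0, 0⟩
  q11 := ⟨0, 0, 0, 0⟩
  q12 := ⟨0, 0, 0, 0⟩
  q20 := ⟨0, 0, 0, 0⟩
  q21 := ⟨0, 0, 0, 0⟩
  q30 := ⟨0, 0, 0, 0⟩
  n000 := ⟨0, 0, 0, 0⟩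
  n001 := ⟨0, 0, 0, 0⟩
  n002 := ⟨0, 0, 0, 0⟩
  n010 := ⟨0, 0, 0, 0⟩
  n011 := ⟨0, 0, 0, 0⟩
  n020 := ⟨0, 0, 0, 0⟩
  n100 := ⟨0, 0, 0, 0⟩
  n101 := ⟨0, 0, 0, 0⟩
  n110 := ⟨0, 0, 0, 0⟩
  n200 := ⟨0, 0, 0, 0⟩
  n201 := ⟨0, 0, 0, 0⟩
  n210 := ⟨0, 0, 0, 0⟩
  n300 := ⟨0, 0, 0, 0⟩
  n400 := ⟨0, 0, 0, 0⟩
  n500 := ⟨0, 0, 0, 0⟩
  e00 := ⟨0, 0, 0, 0⟩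
  e01 := ⟨0, 0, 0, 0⟩
  e02 := ⟨0, 0, 0, 0⟩
  e03 := ⟨0, 0, 0, 0⟩
  e10 := ⟨0, 0, 0, 0⟩
  e11 := ⟨0, 0, 0, 0⟩
  B1 := 0

def p2 : Pm where
  ec := ⟨45902462976, 0, 0, 0⟩
  bc := ⟨0, 0, 0, 0⟩
  nn := ⟨3298534883328, 0, 0, 0⟩
  tj := ⟨8796093022208, 0, 0, 0⟩
  ca := ⟨659814350848, 0, 0, 0⟩
  cb := ⟨494726545408, 0, 0, 0⟩
  cc := ⟨0, 0, 0, 0⟩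
  ax := ⟨0, 0, 0, 0⟩
  ay := ⟨0, 0, 0, 0⟩
  xa := ⟨0, 0, 0, 0⟩
  C2 := ⟨0, 0, 0, 0⟩
  wr := ⟨0, 998043025408, 0, 0⟩
  wi := ⟨5872294035456, 0, 0, 0⟩
  w1 := ⟨0, 11957188952064, 0, 0⟩
  h000 := ⟨0, 59816255360, 0, 0⟩
  h001 := ⟨2081394880, 0, 0, 0⟩
  h002 := ⟨0, 4130264000, 0, 0⟩
  h003 := ⟨7518620864, 0, 0, 0⟩
  h010 := ⟨0, 1996570196992, 0, 0⟩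
  h011 := ⟨510933846080, 0, 0, 0⟩
  h012 := ⟨0, 0, 0, 0⟩
  h020 := ⟨1542885910656, 0, 0, 0⟩
  h021 := ⟨0, 0, 0, 0⟩
  h030 := ⟨0, 0, 0, 0⟩
  h100 := ⟨2625549888, 0, 0, 0⟩
  h101 := ⟨1422037824, 0, 0, 0⟩
  h102 := ⟨0, 152240768, 0, 0⟩
  h110 := ⟨49251444032, 0, 0, 0⟩
  h111 := ⟨0, 228020891136, 0, 0⟩
  h120 := ⟨0, 0, 0, 0⟩
  h200 := ⟨1008852608, 0, 0, 0⟩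
  h201 := ⟨0, 133931008, 0, 0⟩
  h202 := ⟨745861632, 0, 0, 0⟩
  h210 := ⟨39522469312, 0, 0, 0⟩
  h211 := ⟨0, 0, 0, 0⟩
  h300 := ⟨0, 184519424, 0, 0⟩
  h301 := ⟨0, 51158080, 0, 0⟩
  h310 := ⟨0, 6657367872, 0, 0⟩
  h400 := ⟨0, 5444288, 0, 0⟩
  h401 := ⟨10833024, 0, 0, 0⟩
  h410 := ⟨0, 0, 0, 0⟩
  h500 := ⟨4637056, 0, 0, 0⟩
  h501 := ⟨0, 0, 0, 0⟩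
  h600 := ⟨0, 689408, 0, 0⟩
  h700 := ⟨0, 0, 0, 0⟩
  h800 := ⟨0, 0, 0, 0⟩
  m000 := ⟨1095055507456, 0, 0, 0⟩
  m001 := ⟨0, 190185472, 0, 0⟩
  m002 := ⟨9300410368, 0, 0, 0⟩
  m010 := ⟨99690872832, 0, 0, 0⟩
  m100 := ⟨26856849408, 0, 0, 0⟩
  m101 := ⟨963313664, 0, 0, 0⟩
  m110 := ⟨582061654016, 0, 0, 0⟩
  m200 := ⟨0, 1202913280, 0, 0⟩
  m300 := ⟨103022592, 0, 0, 0⟩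
  a00 := ⟨53936521216, 0, 0, 0⟩
  a01 := ⟨42876338176, 0, 0, 0⟩
  a02 := ⟨51245875200, 0, 0, 0⟩
  a03 := ⟨0, 365064028160, 0, 0⟩
  a10 := ⟨25714753536, 0, 0, 0⟩
  a11 := ⟨0, 497933615104, 0, 0⟩
  b00 := ⟨45812350976, 0, 0, 0⟩
  b01 := ⟨20855193600, 0, 0, 0⟩
  b02 := ⟨8980529152, 0, 0, 0⟩
  b03 := ⟨0, 160410304512, 0, 0⟩
  b10 := ⟨0, 42228252672, 0, 0⟩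
  b11 := ⟨0, 370692521984, 0, 0⟩
  t00 := ⟨643074883584, 0, 0, 0⟩
  t01 := ⟨10032840704, 0, 0, 0⟩
  t02 := ⟨259440836608, 0, 0, 0⟩
  t03 := ⟨0, 1582733131776, 0, 0⟩
  t10 := ⟨846642348032, 0, 0, 0⟩
  t11 := ⟨1320349466624, 0, 0, 0⟩
  s00 := ⟨2924324585472, 0, 0, 0⟩
  s01 := ⟨755271991296, 0, 0, 0⟩
  s02 := ⟨1489363533824, 0, 0, 0⟩
  s03 := ⟨0, 3331834183680, 0, 0⟩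
  s10 := ⟨411459649536, 0, 0, 0⟩
  s11 := ⟨4060576940032, 0, 0, 0⟩
  g00 := ⟨198513180672, 0, 0, 0⟩
  g01 := ⟨0, 173764430464, 0, 0⟩
  g10 := ⟨8000825637376, 0, 0, 0⟩
  g11 := ⟨0, 0, 0, 0⟩
  f00 := ⟨1575936818432, 0, 0, 0⟩
  f01 := ⟨762832117504, 0, 0, 0⟩
  f10 := ⟨50436827620992, 0, 0, 0⟩
  f11 := ⟨0, 0, 0, 0⟩
  l000 := ⟨0, 0, 0, 0⟩
  l001 := ⟨0, 0, 0, 0⟩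
  l002 := ⟨0, 0, 0, 0⟩
  l010 := ⟨0, 0, 0, 0⟩
  l011 := ⟨0, 0, 0, 0⟩
  l020 := ⟨0, 0, 0, 0⟩
  l100 := ⟨0, 0, 0, 0⟩
  l101 := ⟨0, 0, 0, 0⟩
  l102 := ⟨0, 0, 0, 0⟩
  l110 := ⟨0, 0, 0, 0⟩
  l111 := ⟨0, 0, 0, 0⟩
  l120 := ⟨0, 0, 0, 0⟩
  l200 := ⟨0, 0, 0, 0⟩
  l201 := ⟨0, 0, 0, 0⟩
  l210 := ⟨0, 0, 0, 0⟩
  l300 := ⟨0, 0, 0, 0⟩
  l301 := ⟨0, 0, 0, 0⟩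
  l310 := ⟨0, 0, 0, 0⟩
  l400 := ⟨0, 0, 0, 0⟩
  l401 := ⟨0, 0, 0, 0⟩
  l410 := ⟨0, 0, 0, 0⟩
  l500 := ⟨0, 0, 0, 0⟩
  l501 := ⟨0, 0, 0, 0⟩
  l510 := ⟨0, 0, 0, 0⟩
  l600 := ⟨0, 0, 0, 0⟩
  l700 := ⟨0, 0, 0, 0⟩
  l800 := ⟨0, 0, 0, 0⟩
  l900 := ⟨0, 0, 0, 0⟩
  l1000 := ⟨0, 0, 0, 0⟩
  l1100 := ⟨0, 0, 0, 0⟩
  q00 := ⟨0, 0, 0, 0⟩
  q01 := ⟨0, 0, 0, 0⟩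
  q02 := ⟨0, 0, 0, 0⟩
  q03 := ⟨0, 0, 0, 0⟩
  q10 := ⟨0, 0, 0, 0⟩
  q11 := ⟨0, 0, 0, 0⟩
  q12 := ⟨0, 0, 0, 0⟩
  q20 := ⟨0, 0, 0, 0⟩
  q21 := ⟨0, 0, 0, 0⟩
  q30 := ⟨0, 0, 0, 0⟩
  n000 := ⟨0, 0, 0, 0⟩
  n001 := ⟨0, 0, 0, 0⟩
  n002 := ⟨0, 0, 0, 0⟩
  n010 := ⟨0, 0, 0, 0⟩
  n011 := ⟨0, 0, 0, 0⟩
  n020 := ⟨0, 0, 0, 0⟩
  n100 := ⟨0, 0, 0, 0⟩
  n101 := ⟨0, 0, 0, 0⟩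
  n110 := ⟨0, 0, 0, 0⟩
  n200 := ⟨0, 0, 0, 0⟩
  n201 := ⟨0, 0, 0, 0⟩
  n210 := ⟨0, 0, 0, 0⟩
  n300 := ⟨0, 0, 0, 0⟩
  n400 := ⟨0, 0, 0, 0⟩
  n500 := ⟨0, 0, 0, 0⟩
  e00 := ⟨0, 0, 0, 0⟩
  e01 := ⟨0, 0, 0, 0⟩
  e02 := ⟨0, 0, 0, 0⟩
  e03 := ⟨0, 0, 0, 0⟩
  e10 := ⟨0, 0, 0, 0⟩
  e11 := ⟨0, 0, 0, 0⟩
  B1 := 0

def p3 : Pm where
  ec := ⟨45902462976, 0, 0, 0⟩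
  bc := ⟨0, 0, 0, 0⟩
  nn := ⟨4398046511104, 0, 0, 0⟩
  tj := ⟨10995116277760, 0, 0, 0⟩
  ca := ⟨494726545408, 0, 0, 0⟩
  cb := ⟨384936443904, 0, 0, 0⟩
  cc := ⟨0, 0, 0, 0⟩
  ax := ⟨0, 0, 0, 0⟩
  ay := ⟨0, 0, 0, 0⟩
  xa := ⟨0, 0, 0, 0⟩
  C2 := ⟨0, 0, 0, 0⟩
  wr := ⟨0, 998043025408, 0, 0⟩
  wi := ⟨5872294035456, 0, 0, 0⟩
  w1 := ⟨0, 11957188952064, 0, 0⟩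
  h000 := ⟨0, 59816255360, 0, 0⟩
  h001 := ⟨2081394880, 0, 0, 0⟩
  h002 := ⟨0, 4130264000, 0, 0⟩
  h003 := ⟨7518620864, 0, 0, 0⟩
  h010 := ⟨0, 1996570196992, 0, 0⟩
  h011 := ⟨510933846080, 0, 0, 0⟩
  h012 := ⟨0, 0, 0, 0⟩
  h020 := ⟨1542885910656, 0, 0, 0⟩
  h021 := ⟨0, 0, 0, 0⟩
  h030 := ⟨0, 0, 0, 0⟩
  h100 := ⟨2625549888, 0, 0, 0⟩
  h101 := ⟨1422037824, 0, 0, 0⟩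
  h102 := ⟨0, 152240768, 0, 0⟩
  h110 := ⟨49251444032, 0, 0, 0⟩
  h111 := ⟨0, 228020891136, 0, 0⟩
  h120 := ⟨0, 0, 0, 0⟩
  h200 := ⟨1008852608, 0, 0, 0⟩
  h201 := ⟨0, 133931008, 0, 0⟩
  h202 := ⟨745861632, 0, 0, 0⟩
  h210 := ⟨39522469312, 0, 0, 0⟩
  h211 := ⟨0, 0, 0, 0⟩
  h300 := ⟨0, 184519424, 0, 0⟩
  h301 := ⟨0, 51158080, 0, 0⟩
  h310 := ⟨0, 6657367872, 0, 0⟩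
  h400 := ⟨0, 5444288, 0, 0⟩
  h401 := ⟨10833024, 0, 0, 0⟩
  h410 := ⟨0, 0, 0, 0⟩
  h500 := ⟨4637056, 0, 0, 0⟩
  h501 := ⟨0, 0, 0, 0⟩
  h600 := ⟨0, 689408, 0, 0⟩
  h700 := ⟨0, 0, 0, 0⟩
  h800 := ⟨0, 0, 0, 0⟩
  m000 := ⟨1096137834496, 0, 0, 0⟩
  m001 := ⟨0, 424542208, 0, 0⟩
  m002 := ⟨10587013120, 0, 0, 0⟩
  m010 := ⟨80879419392, 0, 0, 0⟩
  m100 := ⟨26234650624, 0, 0, 0⟩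
  m101 := ⟨749076480, 0, 0, 0⟩
  m110 := ⟨573014474752, 0, 0, 0⟩
  m200 := ⟨0, 986710016, 0, 0⟩
  m300 := ⟨76349440, 0, 0, 0⟩
  a00 := ⟨45812350976, 0, 0, 0⟩
  a01 := ⟨20855193600, 0, 0, 0⟩
  a02 := ⟨8980529152, 0, 0, 0⟩
  a03 := ⟨0, 160410304512, 0, 0⟩
  a10 := ⟨0, 42228252672, 0, 0⟩
  a11 := ⟨0, 370692521984, 0, 0⟩
  b00 := ⟨38866780160, 0, 0, 0⟩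
  b01 := ⟨5566627840, 0, 0, 0⟩
  b02 := ⟨0, 18943705088, 0, 0⟩
  b03 := ⟨0, 5492899840, 0, 0⟩
  b10 := ⟨0, 89867550720, 0, 0⟩
  b11 := ⟨0, 228528095232, 0, 0⟩
  t00 := ⟨545743044608, 0, 0, 0⟩
  t01 := ⟨6256721920, 0, 0, 0⟩
  t02 := ⟨0, 394478944256, 0, 0⟩
  t03 := ⟨802541928448, 0, 0, 0⟩
  t10 := ⟨0, 90629931008, 0, 0⟩
  t11 := ⟨3684006297600, 0, 0, 0⟩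
  s00 := ⟨3567399469056, 0, 0, 0⟩
  s01 := ⟨765304832000, 0, 0, 0⟩
  s02 := ⟨1748804370432, 0, 0, 0⟩
  s03 := ⟨0, 4914567315456, 0, 0⟩
  s10 := ⟨1258101997568, 0, 0, 0⟩
  s11 := ⟨5380926406656, 0, 0, 0⟩
  g00 := ⟨198513180672, 0, 0, 0⟩
  g01 := ⟨0, 173764430464, 0, 0⟩
  g10 := ⟨8000825637376, 0, 0, 0⟩
  g11 := ⟨0, 0, 0, 0⟩
  f00 := ⟨1575936818432, 0, 0, 0⟩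
  f01 := ⟨762832117504, 0, 0, 0⟩
  f10 := ⟨50436827620992, 0, 0, 0⟩
  f11 := ⟨0, 0, 0, 0⟩
  l000 := ⟨0, 0, 0, 0⟩
  l001 := ⟨0, 0, 0, 0⟩
  l002 := ⟨0, 0, 0, 0⟩
  l010 := ⟨0, 0, 0, 0⟩
  l011 := ⟨0, 0, 0, 0⟩
  l020 := ⟨0, 0, 0, 0⟩
  l100 := ⟨0, 0, 0, 0⟩
  l101 := ⟨0, 0, 0, 0⟩
  l102 := ⟨0, 0, 0, 0⟩
  l110 := ⟨0, 0, 0, 0⟩
  l111 := ⟨0, 0, 0, 0⟩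
  l120 := ⟨0, 0, 0, 0⟩
  l200 := ⟨0, 0, 0, 0⟩
  l201 := ⟨0, 0, 0, 0⟩
  l210 := ⟨0, 0, 0, 0⟩
  l300 := ⟨0, 0, 0, 0⟩
  l301 := ⟨0, 0, 0, 0⟩
  l310 := ⟨0, 0, 0, 0⟩
  l400 := ⟨0, 0, 0, 0⟩
  l401 := ⟨0, 0, 0, 0⟩
  l410 := ⟨0, 0, 0, 0⟩
  l500 := ⟨0, 0, 0, 0⟩
  l501 := ⟨0, 0, 0, 0⟩
  l510 := ⟨0, 0, 0, 0⟩
  l600 := ⟨0, 0, 0, 0⟩
  l700 := ⟨0, 0, 0, 0⟩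
  l800 := ⟨0, 0, 0, 0⟩
  l900 := ⟨0, 0, 0, 0⟩
  l1000 := ⟨0, 0, 0, 0⟩
  l1100 := ⟨0, 0, 0, 0⟩
  q00 := ⟨0, 0, 0, 0⟩
  q01 := ⟨0, 0, 0, 0⟩
  q02 := ⟨0, 0, 0, 0⟩
  q03 := ⟨0, 0, 0, 0⟩
  q10 := ⟨0, 0, 0, 0⟩
  q11 := ⟨0, 0, 0, 0⟩
  q12 := ⟨0, 0, 0, 0⟩
  q20 := ⟨0, 0, 0, 0⟩
  q21 := ⟨0, 0, 0, 0⟩
  q30 := ⟨0, 0, 0, 0⟩
  n000 := ⟨0, 0, 0, 0⟩
  n001 := ⟨0, 0, 0, 0⟩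
  n002 := ⟨0, 0, 0, 0⟩
  n010 := ⟨0, 0, 0, 0⟩
  n011 := ⟨0, 0, 0, 0⟩
  n020 := ⟨0, 0, 0, 0⟩
  n100 := ⟨0, 0, 0, 0⟩
  n101 := ⟨0, 0, 0, 0⟩
  n110 := ⟨0, 0, 0, 0⟩
  n200 := ⟨0, 0, 0, 0⟩
  n201 := ⟨0, 0, 0, 0⟩
  n210 := ⟨0, 0, 0, 0⟩
  n300 := ⟨0, 0, 0, 0⟩
  n400 := ⟨0, 0, 0, 0⟩
  n500 := ⟨0, 0, 0, 0⟩
  e00 := ⟨0, 0, 0, 0⟩
  e01 := ⟨0, 0, 0, 0⟩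
  e02 := ⟨0, 0, 0, 0⟩
  e03 := ⟨0, 0, 0, 0⟩
  e10 := ⟨0, 0, 0, 0⟩
  e11 := ⟨0, 0, 0, 0⟩
  B1 := 0

def p4 : Pm where
  ec := ⟨45902462976, 0, 0, 0⟩
  bc := ⟨0, 0, 0, 0⟩
  nn := ⟨5497558138880, 0, 0, 0⟩
  tj := ⟨13194139533312, 0, 0, 0⟩
  ca := ⟨384936443904, 0, 0, 0⟩
  cb := ⟨0, 0, 0, 0⟩
  cc := ⟨0, 0, 0, 0⟩
  ax := ⟨0, 0, 0, 0⟩
  ay := ⟨219902325760, 0, 0, 0⟩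
  xa := ⟨4288095453184, 0, 0, 0⟩
  C2 := ⟨1379779086336, 0, 0, 0⟩
  wr := ⟨0, 998043025408, 0, 0⟩
  wi := ⟨5872294035456, 0, 0, 0⟩
  w1 := ⟨0, 11957188952064, 0, 0⟩
  h000 := ⟨0, 59816255360, 0, 0⟩
  h001 := ⟨2081394880, 0, 0, 0⟩
  h002 := ⟨0, 4130264000, 0, 0⟩
  h003 := ⟨7518620864, 0, 0, 0⟩
  h010 := ⟨0, 1996570196992, 0, 0⟩
  h011 := ⟨510933846080, 0, 0, 0⟩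
  h012 := ⟨0, 0, 0, 0⟩
  h020 := ⟨1542885910656, 0, 0, 0⟩
  h021 := ⟨0, 0, 0, 0⟩
  h030 := ⟨0, 0, 0, 0⟩
  h100 := ⟨2625549888, 0, 0, 0⟩
  h101 := ⟨1422037824, 0, 0, 0⟩
  h102 := ⟨0, 152240768, 0, 0⟩
  h110 := ⟨49251444032, 0, 0, 0⟩
  h111 := ⟨0, 228020891136, 0, 0⟩
  h120 := ⟨0, 0, 0, 0⟩
  h200 := ⟨1008852608, 0, 0, 0⟩
  h201 := ⟨0, 133931008, 0, 0⟩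
  h202 := ⟨745861632, 0, 0, 0⟩
  h210 := ⟨39522469312, 0, 0, 0⟩
  h211 := ⟨0, 0, 0, 0⟩
  h300 := ⟨0, 184519424, 0, 0⟩
  h301 := ⟨0, 51158080, 0, 0⟩
  h310 := ⟨0, 6657367872, 0, 0⟩
  h400 := ⟨0, 5444288, 0, 0⟩
  h401 := ⟨10833024, 0, 0, 0⟩
  h410 := ⟨0, 0, 0, 0⟩
  h500 := ⟨4637056, 0, 0, 0⟩
  h501 := ⟨0, 0, 0, 0⟩
  h600 := ⟨0, 689408, 0, 0⟩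
  h700 := ⟨0, 0, 0, 0⟩
  h800 := ⟨0, 0, 0, 0⟩
  m000 := ⟨1096010498048, 0, 0, 0⟩
  m001 := ⟨0, 627834880, 0, 0⟩
  m002 := ⟨14408876032, 0, 0, 0⟩
  m010 := ⟨106251223040, 0, 0, 0⟩
  m100 := ⟨26419789824, 0, 0, 0⟩
  m101 := ⟨847708160, 0, 0, 0⟩
  m110 := ⟨580321738752, 0, 0, 0⟩
  m200 := ⟨0, 1023934464, 0, 0⟩
  m300 := ⟨98304000, 0, 0, 0⟩
  a00 := ⟨38866780160, 0, 0, 0⟩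
  a01 := ⟨5566627840, 0, 0, 0⟩
  a02 := ⟨0, 18943705088, 0, 0⟩
  a03 := ⟨0, 5492899840, 0, 0⟩
  a10 := ⟨0, 89867550720, 0, 0⟩
  a11 := ⟨0, 228528095232, 0, 0⟩
  b00 := ⟨0, 0, 0, 0⟩
  b01 := ⟨0, 0, 0, 0⟩
  b02 := ⟨0, 0, 0, 0⟩
  b03 := ⟨0, 0, 0, 0⟩
  b10 := ⟨0, 0, 0, 0⟩
  b11 := ⟨0, 0, 0, 0⟩
  t00 := ⟨467738886144, 0, 0, 0⟩
  t01 := ⟨0, 56433573888, 0, 0⟩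
  t02 := ⟨0, 645461901312, 0, 0⟩
  t03 := ⟨2684012003328, 0, 0, 0⟩
  t10 := ⟨0, 1092750082048, 0, 0⟩
  t11 := ⟨10815412764672, 0, 0, 0⟩
  s00 := ⟨4113142513664, 0, 0, 0⟩
  s01 := ⟨771561553920, 0, 0, 0⟩
  s02 := ⟨1354325426176, 0, 0, 0⟩
  s03 := ⟨0, 4112025387008, 0, 0⟩
  s10 := ⟨1167472066560, 0, 0, 0⟩
  s11 := ⟨9064932704256, 0, 0, 0⟩
  g00 := ⟨198513180672, 0, 0, 0⟩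
  g01 := ⟨0, 173764430464, 0, 0⟩
  g10 := ⟨8000825637376, 0, 0, 0⟩
  g11 := ⟨0, 0, 0, 0⟩
  f00 := ⟨1575936818432, 0, 0, 0⟩
  f01 := ⟨762832117504, 0, 0, 0⟩
  f10 := ⟨50436827620992, 0, 0, 0⟩
  f11 := ⟨0, 0, 0, 0⟩
  l000 := ⟨0, 0, 0, 0⟩
  l001 := ⟨0, 0, 0, 0⟩
  l002 := ⟨0, 0, 0, 0⟩
  l010 := ⟨0, 0, 0, 0⟩
  l011 := ⟨0, 0, 0, 0⟩
  l020 := ⟨0, 0, 0, 0⟩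
  l100 := ⟨0, 0, 0, 0⟩
  l101 := ⟨0, 0, 0, 0⟩
  l102 := ⟨0, 0, 0, 0⟩
  l110 := ⟨0, 0, 0, 0⟩
  l111 := ⟨0, 0, 0, 0⟩
  l120 := ⟨0, 0, 0, 0⟩
  l200 := ⟨0, 0, 0, 0⟩
  l201 := ⟨0, 0, 0, 0⟩
  l210 := ⟨0, 0, 0, 0⟩
  l300 := ⟨0, 0, 0, 0⟩
  l301 := ⟨0, 0, 0, 0⟩
  l310 := ⟨0, 0, 0, 0⟩
  l400 := ⟨0, 0, 0, 0⟩
  l401 := ⟨0, 0, 0, 0⟩
  l410 := ⟨0, 0, 0, 0⟩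
  l500 := ⟨0, 0, 0, 0⟩
  l501 := ⟨0, 0, 0, 0⟩
  l510 := ⟨0, 0, 0, 0⟩
  l600 := ⟨0, 0, 0, 0⟩
  l700 := ⟨0, 0, 0, 0⟩
  l800 := ⟨0, 0, 0, 0⟩
  l900 := ⟨0, 0, 0, 0⟩
  l1000 := ⟨0, 0, 0, 0⟩
  l1100 := ⟨0, 0, 0, 0⟩
  q00 := ⟨0, 0, 0, 0⟩
  q01 := ⟨0, 0, 0, 0⟩
  q02 := ⟨0, 0, 0, 0⟩
  q03 := ⟨0, 0, 0, 0⟩
  q10 := ⟨0, 0, 0, 0⟩
  q11 := ⟨0, 0, 0, 0⟩
  q12 := ⟨0, 0, 0, 0⟩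
  q20 := ⟨0, 0, 0, 0⟩
  q21 := ⟨0, 0, 0, 0⟩
  q30 := ⟨0, 0, 0, 0⟩
  n000 := ⟨0, 0, 0, 0⟩
  n001 := ⟨0, 0, 0, 0⟩
  n002 := ⟨0, 0, 0, 0⟩
  n010 := ⟨0, 0, 0, 0⟩
  n011 := ⟨0, 0, 0, 0⟩
  n020 := ⟨0, 0, 0, 0⟩
  n100 := ⟨0, 0, 0, 0⟩
  n101 := ⟨0, 0, 0, 0⟩
  n110 := ⟨0, 0, 0, 0⟩
  n200 := ⟨0, 0, 0, 0⟩
  n201 := ⟨0, 0, 0, 0⟩
  n210 := ⟨0, 0, 0, 0⟩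
  n300 := ⟨0, 0, 0, 0⟩
  n400 := ⟨0, 0, 0, 0⟩
  n500 := ⟨0, 0, 0, 0⟩
  e00 := ⟨0, 0, 0, 0⟩
  e01 := ⟨0, 0, 0, 0⟩
  e02 := ⟨0, 0, 0, 0⟩
  e03 := ⟨0, 0, 0, 0⟩
  e10 := ⟨0, 0, 0, 0⟩
  e11 := ⟨0, 0, 0, 0⟩
  B1 := 879608463360

def pF : Pm where
  ec := ⟨45902462976, 0, 0, 0⟩
  bc := ⟨0, 0, 0, 0⟩
  nn := ⟨0, 0, 0, 0⟩
  tj := ⟨2199023255552, 0, 0, 0⟩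
  ca := ⟨1099511627776, 0, 0, 0⟩
  cb := ⟨0, 0, 0, 0⟩
  cc := ⟨879662989312, 0, 0, 0⟩
  ax := ⟨0, 0, 0, 0⟩
  ay := ⟨0, 0, 0, 0⟩
  xa := ⟨0, 0, 0, 0⟩
  C2 := ⟨0, 0, 0, 0⟩
  wr := ⟨0, 998043025408, 0, 0⟩
  wi := ⟨5872294035456, 0, 0, 0⟩
  w1 := ⟨0, 11957188952064, 0, 0⟩
  h000 := ⟨0, 59816255360, 0, 0⟩
  h001 := ⟨2081394880, 0, 0, 0⟩
  h002 := ⟨0, 4130264000, 0, 0⟩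
  h003 := ⟨7518620864, 0, 0, 0⟩
  h010 := ⟨0, 1996570196992, 0, 0⟩
  h011 := ⟨510933846080, 0, 0, 0⟩
  h012 := ⟨0, 0, 0, 0⟩
  h020 := ⟨1542885910656, 0, 0, 0⟩
  h021 := ⟨0, 0, 0, 0⟩
  h030 := ⟨0, 0, 0, 0⟩
  h100 := ⟨2625549888, 0, 0, 0⟩
  h101 := ⟨1422037824, 0, 0, 0⟩
  h102 := ⟨0, 152240768, 0, 0⟩
  h110 := ⟨49251444032, 0, 0, 0⟩
  h111 := ⟨0, 228020891136, 0, 0⟩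
  h120 := ⟨0, 0, 0, 0⟩
  h200 := ⟨1008852608, 0, 0, 0⟩
  h201 := ⟨0, 133931008, 0, 0⟩
  h202 := ⟨745861632, 0, 0, 0⟩
  h210 := ⟨39522469312, 0, 0, 0⟩
  h211 := ⟨0, 0, 0, 0⟩
  h300 := ⟨0, 184519424, 0, 0⟩
  h301 := ⟨0, 51158080, 0, 0⟩
  h310 := ⟨0, 6657367872, 0, 0⟩
  h400 := ⟨0, 5444288, 0, 0⟩
  h401 := ⟨10833024, 0, 0, 0⟩
  h410 := ⟨0, 0, 0, 0⟩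
  h500 := ⟨4637056, 0, 0, 0⟩
  h501 := ⟨0, 0, 0, 0⟩
  h600 := ⟨0, 689408, 0, 0⟩
  h700 := ⟨0, 0, 0, 0⟩
  h800 := ⟨0, 0, 0, 0⟩
  m000 := ⟨0, 0, 0, 0⟩
  m001 := ⟨0, 0, 0, 0⟩
  m002 := ⟨0, 0, 0, 0⟩
  m010 := ⟨0, 0, 0, 0⟩
  m100 := ⟨0, 0, 0, 0⟩
  m101 := ⟨0, 0, 0, 0⟩
  m110 := ⟨0, 0, 0, 0⟩
  m200 := ⟨0, 0, 0, 0⟩
  m300 := ⟨0, 0, 0, 0⟩
  a00 := ⟨76048236544, 0, 0, 0⟩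
  a01 := ⟨112625647616, 0, 0, 0⟩
  a02 := ⟨252744368128, 0, 0, 0⟩
  a03 := ⟨0, 1068042289152, 0, 0⟩
  a10 := ⟨138764746752, 0, 0, 0⟩
  a11 := ⟨0, 563694927872, 0, 0⟩
  b00 := ⟨0, 0, 0, 0⟩
  b01 := ⟨0, 0, 0, 0⟩
  b02 := ⟨0, 0, 0, 0⟩
  b03 := ⟨0, 0, 0, 0⟩
  b10 := ⟨0, 0, 0, 0⟩
  b11 := ⟨0, 0, 0, 0⟩
  t00 := ⟨1258382753792, 0, 0, 0⟩
  t01 := ⟨720951574528, 0, 0, 0⟩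
  t02 := ⟨0, 327529529344, 0, 0⟩
  t03 := ⟨4241980653568, 0, 0, 0⟩
  t10 := ⟨0, 3776625508352, 0, 0⟩
  t11 := ⟨6451272876032, 0, 0, 0⟩
  s00 := ⟨0, 0, 0, 0⟩
  s01 := ⟨0, 0, 0, 0⟩
  s02 := ⟨0, 0, 0, 0⟩
  s03 := ⟨0, 0, 0, 0⟩
  s10 := ⟨0, 0, 0, 0⟩
  s11 := ⟨0, 0, 0, 0⟩
  g00 := ⟨198513180672, 0, 0, 0⟩
  g01 := ⟨0, 173764430464, 0, 0⟩
  g10 := ⟨8000825637376, 0, 0, 0⟩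
  g11 := ⟨0, 0, 0, 0⟩
  f00 := ⟨1575936818432, 0, 0, 0⟩
  f01 := ⟨762832117504, 0, 0, 0⟩
  f10 := ⟨50436827620992, 0, 0, 0⟩
  f11 := ⟨0, 0, 0, 0⟩
  l000 := ⟨3474056785472, 0, 0, 0⟩
  l001 := ⟨7452506560, 0, 0, 0⟩
  l002 := ⟨0, 0, 0, 0⟩
  l010 := ⟨251160245824, 0, 0, 0⟩
  l011 := ⟨0, 0, 0, 0⟩
  l020 := ⟨0, 0, 0, 0⟩
  l100 := ⟨1275871324032, 0, 0, 0⟩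
  l101 := ⟨0, 52697520896, 0, 0⟩
  l102 := ⟨0, 0, 0, 0⟩
  l110 := ⟨0, 11223270949504, 0, 0⟩
  l111 := ⟨0, 0, 0, 0⟩
  l120 := ⟨0, 0, 0, 0⟩
  l200 := ⟨333059900928, 0, 0, 0⟩
  l201 := ⟨154945961088, 0, 0, 0⟩
  l210 := ⟨0, 14032237092160, 0, 0⟩
  l300 := ⟨0, 328054493184, 0, 0⟩
  l301 := ⟨0, 558061751424, 0, 0⟩
  l310 := ⟨0, 33724247813056, 0, 0⟩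
  l400 := ⟨1532349294656, 0, 0, 0⟩
  l401 := ⟨838991790144, 0, 0, 0⟩
  l410 := ⟨40545517576192, 0, 0, 0⟩
  l500 := ⟨0, 4061645740288, 0, 0⟩
  l501 := ⟨0, 1212915639680, 0, 0⟩
  l510 := ⟨0, 74371388142272, 0, 0⟩
  l600 := ⟨11147967724736, 0, 0, 0⟩
  l700 := ⟨0, 20507894171648, 0, 0⟩
  l800 := ⟨24235624385792, 0, 0, 0⟩
  l900 := ⟨0, 17834836867328, 0, 0⟩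
  l1000 := ⟨6523853151168, 0, 0, 0⟩
  l1100 := ⟨0, 751133705408, 0, 0⟩
  q00 := ⟨0, 3309040384, 0, 0⟩
  q01 := ⟨180571899968, 0, 0, 0⟩
  q02 := ⟨28213739968, 0, 0, 0⟩
  q03 := ⟨0, 0, 0, 0⟩
  q10 := ⟨0, 131830787584, 0, 0⟩
  q11 := ⟨5251502580608, 0, 0, 0⟩
  q12 := ⟨0, 0, 0, 0⟩
  q20 := ⟨47399354885696, 0, 0, 0⟩
  q21 := ⟨0, 0, 0, 0⟩
  q30 := ⟨0, 0, 0, 0⟩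
  n000 := ⟨1097586376704, 0, 0, 0⟩
  n001 := ⟨0, 16998465536, 0, 0⟩
  n002 := ⟨43522392064, 0, 0, 0⟩
  n010 := ⟨0, 535718068224, 0, 0⟩
  n011 := ⟨661953249280, 0, 0, 0⟩
  n020 := ⟨29852522053632, 0, 0, 0⟩
  n100 := ⟨94534828032, 0, 0, 0⟩
  n101 := ⟨39034748928, 0, 0, 0⟩
  n110 := ⟨4157224976384, 0, 0, 0⟩
  n200 := ⟨62268833792, 0, 0, 0⟩
  n201 := ⟨0, 60878094336, 0, 0⟩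
  n210 := ⟨1168503799808, 0, 0, 0⟩
  n300 := ⟨410572292096, 0, 0, 0⟩
  n400 := ⟨0, 658606391296, 0, 0⟩
  n500 := ⟨573324328960, 0, 0, 0⟩
  e00 := ⟨120122441728, 0, 0, 0⟩
  e01 := ⟨168789934080, 0, 0, 0⟩
  e02 := ⟨1900665962496, 0, 0, 0⟩
  e03 := ⟨0, 2533542395904, 0, 0⟩
  e10 := ⟨0, 36346265600, 0, 0⟩
  e11 := ⟨1629694197760, 0, 0, 0⟩
  B1 := 0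

end Pool.Agent.helper12.K20
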