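import Pool.Agent.helper12.GS.Pc
import Pool.Agent.helper14.NS.Q20a.Tab
import Pool.Agent.helper12.K20.C0

/-!
Generated: the corner of the table Q20a.
-/

namespace Pool.Agent.helper12.K20

open Complex
open Pool.Agent.helper31.IX (Cov cov_split)
open Pool.Agent.helper12.GS Pool.Agent.helper12.RS Pool.Agent.helper63.NF
open Pool.Agent.helper12.GP (CC CF cc25 cf25 corOk corner_of epc)
open Pool.Agent.helper14.NS.Q20a (tab)

theorem c_ok : corOk tab = true := by decide +kernel

theorem l_ok : tab.Okl := TD.okl_of (by decide +kernel)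

theorem cc0 : CC (MAQ.prog0 p0) (MBQ.prog0 p0) 45812809728 9162981376 (1 / 4) :=
  cc25 N0A N0B0 N0B1 N0B2

theorem ag0 : agZ1 tab 0 p0 = true := by decide +kernel

theorem aq0 : agP tab p0 = true := by decide +kernel

theorem cc1 : CC (MAQ.prog0 p1) (MBQ.prog0 p1) 45812809728 9162981376 (1 / 4) :=
  cc25 N1A N1B0 N1B1 N1B2

theorem ag1 : agZ1 tab 1 p1 = true := by decide +kernel

theorem aq1 : agP tab p1 = true := by decide +kernel

theorem cc2 : CC (MAQ.prog0 p2) (MBQ.prog0 p2) 45812809728 9162981376 (1 / 4) :=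
  cc25 N2A N2B0 N2B1 N2B2

theorem ag2 : agZ1 tab 2 p2 = true := by decide +kernel

theorem aq2 : agP tab p2 = true := by decide +kernel

theorem cc3 : CC (MAQ.prog0 p3) (MBQ.prog0 p3) 45812809728 9162981376 (1 / 4) :=
  cc25 N3A N3B0 N3B1 N3B2

theorem ag3 : agZ1 tab 3 p3 = true := by decide +kernel

theorem aq3 : agP tab p3 = true := by decide +kernel

theorem cc4 : CC (LAQ.prog0 p4) (LBQ.prog0 p4) 45812809728 9162981376 (1 / 4) :=
  cc25 N4A N4B0 N4B1 N4B2

theorem ag4 : agZ tab 4 p4 = true := by decide +kernel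

theorem al : agL tab p4 = true := by decide +kernel

theorem aq4 : agP tab p4 = true := by decide +kernel

theorem cf : CF (FAQ.prog0 pF) (FBQ.prog0 pF) 45812809728 9162981376 (1 / 4) := cf25 FA FB

theorem agf : agF tab pF = true := by decide +kernel

theorem aqF : agP tab pF = true := by decide +kernel

/-- **the corner** -/
theorem corner {e κ x0 : ℝ} (h0 : 20 ≤ e) (h1 : e ≤ 30) (hκ : 0 < κ) (hb : e * κ / 2 ≤ 1 / 4)
    (hS : SF tab 6 e κ x0) : Corner tab 6 e κ (1 / 8) (1 / 20) := by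
  have he : 4 ≤ e := by linarith
  have hep : |1 / e - ((45812809728 : ℕ) : ℝ) / 2 ^ 40| ≤ ((9162981376 : ℕ) : ℝ) / 2 ^ 40 :=
    epc (by norm_num) h0 h1 (by norm_num) (by norm_num)
  refine corner_of ?_ ?_ ?_
  · intro m hm arc
    obtain rfl | rfl | rfl | rfl : m = 0 ∨ m = 1 ∨ m = 2 ∨ m = 3 := by omega
    · obtain ⟨q, aq⟩ := agP_of aq0
      exact pc_midQ cc0 c_ok aq (agZ1_of ag0) he hκ (by linarith) hb hep hS hm (by norm_num; linarith) arc
    · obtain ⟨q, aq⟩ := agP_of aq1
      exact pc_midQ cc1 c_ok aq (agZ1_of ag1) he hκ (by linarith) hb hep hS hm (by norm_num; linarith) arc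
    · obtain ⟨q, aq⟩ := agP_of aq2
      exact pc_midQ cc2 c_ok aq (agZ1_of ag2) he hκ (by linarith) hb hep hS hm (by norm_num; linarith) arc
    · obtain ⟨q, aq⟩ := agP_of aq3
      exact pc_midQ cc3 c_ok aq (agZ1_of ag3) he hκ (by linarith) hb hep hS hm (by norm_num; linarith) arc
  · intro m hm arc
    obtain rfl : m = 4 := by omega
    obtain ⟨q, aq⟩ := agP_of aq4
    exact pc_lastQ cc4 c_ok l_ok aq (agZ_of ag4) (agL_of al) he hκ (by linarith) hb hep hS hm (by norm_num; linarith) arc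
  · obtain ⟨q, aq⟩ := agP_of aqF
    exact pc_zeroQ cf c_ok aq (agF_of agf) he hκ hb hep hS (by norm_num)

end Pool.Agent.helper12.K20
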